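import Pool.Agent.Zariski.Final

/-!
# MP_1cf843_ag: Zariski's dimensionality type depends on the coefficient field
-/

namespace Pool.Agent.Results.MP_1cf843_ag.CoefficientField

open MvPowerSeries Pool.Agent.Zariski

universe u

/-- **Zariski's dimensionality type depends on the coefficient field.**
Let `k` be an algebraically closed field of characteristic `0` which is not algebraic over `ℚ`.
There are a power series `f ∈ k[[X_0, ..., X_5]]` without multiple factors, `f(0) = 0`, and two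
coefficient fields `ι₁, ι₂` of the local ring `o = k[[X_0, ..., X_5]] / (f)` such that the
dimensionality type of the closed point of `V = Spec o` (`r = 5`) computed over `ι₁(k)` is `5`,
and computed over `ι₂(k)` it is defined and at most `4`.

The example is
`f = X_2 X_4 X_1 X_3 (X_1 + X_5^4) (X_3 + X_5^4) (X_1 + τ X_5^4) (X_3 + τ X_5^4)` with
`τ = t + X_0 X_5`, where `t ∈ k` is transcendental over `ℚ`; `ι₁` is the inclusion of the
constants, `ι₂` is `exp (X_0 X_5 D)` restricted to the constants, `D` a derivation of `k` with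
`D t = 1`, so that `τ ∈ ι₂(k)`. -/
theorem result
    (k : Type u) [Field k] [IsAlgClosed k] [CharZero k] (hk : ¬ Algebra.IsAlgebraic ℚ k) :
    ∃ f : MvPowerSeries (Fin 6) k, Squarefree f ∧ constantCoeff f = 0 ∧
      ∃ _ : IsLocalRing (MvPowerSeries (Fin 6) k ⧸ Ideal.span {f}),
      ∃ ι₁ ι₂ : k →+* MvPowerSeries (Fin 6) k ⧸ Ideal.span {f},
        IsCoeffField ι₁ ∧ IsCoeffField ι₂ ∧
        (∀ d, HasDimType 5 ι₁
          (IsLocalRing.maximalIdeal (MvPowerSeries (Fin 6) k ⧸ Ideal.span {f})) d ↔ d = 5) ∧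
        (∃ d, HasDimType 5 ι₂
          (IsLocalRing.maximalIdeal (MvPowerSeries (Fin 6) k ⧸ Ideal.span {f})) d) ∧
        (∀ d, HasDimType 5 ι₂
          (IsLocalRing.maximalIdeal (MvPowerSeries (Fin 6) k ⧸ Ideal.span {f})) d → d ≤ 4) := by
  obtain ⟨t, ht⟩ : ∃ t : k, Transcendental ℚ t := by
    by_contra hcon
    exact hk ⟨fun x => by
      by_contra hx
      exact hcon ⟨x, hx⟩⟩
  have ht0 : t ≠ 0 := by
    rintro rfl
    exact ht isAlgebraic_zero
  have ht1 : t ≠ 1 := by
    rintro rfl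
    exact ht isAlgebraic_one
  obtain ⟨D, hD⟩ := exists_derivation_eq_one ht
  obtain ⟨Φ, hΦX, hΦc, hΦC⟩ := exists_exp_automorphism (n := 6) D (h := X 0 * X 5)
    (by simp) (by rw [(mkDer D 0).leibniz, mkDer_X, mkDer_X]; simp)
  have hΦt : Φ (C t) = C t + X 0 * X 5 := by
    rw [hΦC t (by rw [hD, D.map_one_eq_zero]), hD, map_one, one_mul]
  have hX := isParam_X 6 k
  have h0 : constantCoeff (Vf 4 ![0, 1, C t + X 0 * X 5] X : MvPowerSeries (Fin 6) k) = 0 :=
    constantCoeff_Vf hX.1 (by norm_num) _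
  have hloc : IsLocalRing (MvPowerSeries (Fin 6) k ⧸ Ideal.span
      {(Vf 4 ![0, 1, C t + X 0 * X 5] X : MvPowerSeries (Fin 6) k)}) := isLocalRing_quotient h0
  exact ⟨Vf 4 ![0, 1, C t + X 0 * X 5] X, squarefree_V1 hX (by norm_num) ht0 ht1, h0, hloc,
    (Ideal.Quotient.mk _).comp C, (Ideal.Quotient.mk _).comp (Φ.toRingHom.comp C),
    isCoeffField_mk h0 C (fun a => constantCoeff_C a),
    isCoeffField_mk h0 (Φ.toRingHom.comp C) hΦc,
    first_coeffField ht0 ht1 rfl,
    second_coeffField ht0 ht1 rfl Φ hΦX hΦt⟩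

end Pool.Agent.Results.MP_1cf843_ag.CoefficientField
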